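import Pool.Agent.Lib_MP_70e04f_ag.FinalG

/-!
The SHGH conjecture for plane linear systems with `n = k ^ 2 + 2 R` general base points whose
multiplicities take at most two consecutive values `M`, `M + 1`, when the expected critical degree
is at most `k (M + 2) - 1`.
-/

namespace Pool.Agent.Results.MP_70e04f_ag.NearUniform

/-- For `n = k ^ 2 + 2 * R` general points of the plane with `R ≤ 2 * k + 1` and multiplicities
`m i ∈ {M, M + 1}` such that `∑ m i (m i + 1) ≤ k (M + 2) (k (M + 2) + 1)`, the space of curves of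
degree at most `d` (in the affine plane) with multiplicity at least `m i` at `p i` has the expected
dimension `max 0 χ`, for every `d`. -/
theorem result :
    ∀ (n k R M d : ℕ), 0 < k → n = k ^ 2 + 2 * R → R ≤ 2 * k + 1 →
      ∀ m : Fin n → ℕ, (∀ i, m i = M ∨ m i = M + 1) →
        ∑ i, m i * (m i + 1) ≤ k * (M + 2) * (k * (M + 2) + 1) →
        ∃ g : MvPolynomial (Fin n × Fin 2) ℂ, g ≠ 0 ∧
          ∀ p : Fin n → Fin 2 → ℂ,
            MvPolynomial.eval (fun q : Fin n × Fin 2 => p q.1 q.2) g ≠ 0 →
              ((2 : ℤ) * ((Module.finrank ℂ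
                  ↥(MvPolynomial.restrictTotalDegree (Fin 2) ℂ d ⊓
                    ⨅ i : Fin n, Submodule.restrictScalars ℂ
                      ((RingHom.ker (MvPolynomial.eval (p i)) :
                          Ideal (MvPolynomial (Fin 2) ℂ)) ^ m i)) : ℕ) : ℤ)
                = max 0 (((d : ℤ) + 1) * ((d : ℤ) + 2) - ∑ i, (m i : ℤ) * ((m i : ℤ) + 1))) :=
  fun n k R M d hk hn hR m hm hχ => Pool.MP_70e04f_ag.mainG' n k R M d hk hn hR m hm hχ

end Pool.Agent.Results.MP_70e04f_ag.NearUniform
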